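import Pool.Agent.helper19.HF.SpecC
import Pool.Agent.helper72.HF.APL

/-!
# Project HF, row APZ: almost periods with two slopes (adaptation of helper72/HF/APL.lean)
-/

set_option autoImplicit false

namespace Pool.Agent.HF

open Finset

/-- the indicator function of `b S'` -/
def APZ_g (b : ℕ) (S' : Finset ℕ) (z : ℤ) : ℝ := if ∃ v ∈ S', (b : ℤ) * (v : ℕ) = z then 1 else 0

lemma APZ_g_range (b : ℕ) (S' : Finset ℕ) (z : ℤ) : 0 ≤ APZ_g b S' z ∧ APZ_g b S' z ≤ 1 := by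
  unfold APZ_g
  split_ifs <;> constructor <;> norm_num

lemma APZ_ct (a b : ℕ) (hb : 1 ≤ b) (S S' : Finset ℕ) (d : ℤ) :
    (ctz a b S S' d : ℝ) = ∑ u : {x // x ∈ S}, APZ_g b S' ((a : ℤ) * ((u : ℕ) : ℤ) - d) := by
  classical
  rw [Finset.sum_coe_sort S (fun u : ℕ => APZ_g b S' ((a : ℤ) * ((u : ℕ) : ℤ) - d))]
  have h1 : ctz a b S S' d = #(S.filter (fun u : ℕ => ∃ v ∈ S', (b : ℤ) * (v : ℕ) = (a : ℤ) * ((u : ℕ) : ℤ) - d)) := by
    unfold ctz
    refine Finset.card_bij (fun z _ => z.1) ?_ ?_ ?_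
    · intro z hz
      obtain ⟨hz1, hz2⟩ := Finset.mem_filter.1 hz
      obtain ⟨hz3, hz4⟩ := Finset.mem_product.1 hz1
      exact Finset.mem_filter.2 ⟨hz3, z.2, hz4, by linarith⟩
    · intro z hz z' hz' he
      obtain ⟨hz1, hz2⟩ := Finset.mem_filter.1 hz
      obtain ⟨hz1', hz2'⟩ := Finset.mem_filter.1 hz'
      have he' : z.1 = z'.1 := he
      refine Prod.ext he' ?_
      rw [he'] at hz2
      have h3 : (b : ℤ) * (z.2 : ℕ) = (b : ℤ) * (z'.2 : ℕ) := by linarith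
      have hb' : (b : ℤ) ≠ 0 := by
        have : 0 < b := hb
        exact_mod_cast this.ne'
      exact_mod_cast mul_left_cancel₀ hb' h3
    · intro u hu
      obtain ⟨hu1, v, hv, he⟩ := Finset.mem_filter.1 hu
      exact ⟨(u, v), Finset.mem_filter.2 ⟨Finset.mem_product.2 ⟨hu1, hv⟩, by
        show (a : ℤ) * (u : ℕ) - b * (v : ℕ) = d
        linarith⟩, rfl⟩
  rw [h1, Finset.card_filter]
  unfold APZ_g
  push_cast
  rfl

/-- the deviation -/
noncomputable def APZ_h (a b : ℕ) (S S' : Finset ℕ) (d : ℤ) (v : {x // x ∈ S}) : ℝ :=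
  #S * APZ_g b S' ((a : ℤ) * ((v : ℕ) : ℤ) - d) - ctz a b S S' d

lemma APZ_h_sum (a b : ℕ) (hb : 1 ≤ b) (S S' : Finset ℕ) (d : ℤ) : ∑ v, APZ_h a b S S' d v = 0 := by
  unfold APZ_h
  rw [Finset.sum_sub_distrib, ← Finset.mul_sum, ← APZ_ct a b hb, Finset.sum_const, nsmul_eq_mul, Finset.card_univ, Fintype.card_coe]
  ring

lemma APZ_h_sq (a b : ℕ) (hb : 1 ≤ b) (S S' : Finset ℕ) (d : ℤ) (v : {x // x ∈ S}) : APZ_h a b S S' d v ^ 2 ≤ (#S : ℝ) ^ 2 := by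
  have h1 := APZ_g_range b S' ((a : ℤ) * ((v : ℕ) : ℤ) - d)
  have h2 : (0 : ℝ) ≤ ctz a b S S' d := by positivity
  have h3 : (ctz a b S S' d : ℝ) ≤ #S := by
    rw [APZ_ct a b hb]
    have h4 := Finset.sum_le_card_nsmul (Finset.univ : Finset {x // x ∈ S}) (fun u => APZ_g b S' ((a : ℤ) * ((u : ℕ) : ℤ) - d)) 1
      (fun u _ => (APZ_g_range b S' _).2)
    rw [nsmul_eq_mul, Finset.card_univ, Fintype.card_coe, mul_one] at h4
    exact h4
  have h4 : (0 : ℝ) ≤ #S := by positivity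
  have h5 : (#S : ℝ) * APZ_g b S' ((a : ℤ) * ((v : ℕ) : ℤ) - d) ≤ #S := by nlinarith
  have h6 : 0 ≤ (#S : ℝ) * APZ_g b S' ((a : ℤ) * ((v : ℕ) : ℤ) - d) := mul_nonneg h4 h1.1
  unfold APZ_h
  exact sq_le_sq' (by linarith) (by linarith)

/-- the total deviation of a sample -/
noncomputable def APZ_P (a b : ℕ) (S S' : Finset ℕ) (D : Finset ℤ) {m : ℕ} (u : Fin m → {x // x ∈ S}) : ℝ :=
  ∑ d ∈ D, (∑ i, APZ_h a b S S' d (u i)) ^ 2

lemma APZ_P_nonneg (a b : ℕ) (S S' : Finset ℕ) (D : Finset ℤ) {m : ℕ} (u : Fin m → {x // x ∈ S}) : 0 ≤ APZ_P a b S S' D u :=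
  Finset.sum_nonneg (fun _ _ => sq_nonneg _)

lemma APZ_tot (a b : ℕ) (hb : 1 ≤ b) (S S' : Finset ℕ) (D : Finset ℤ) (m : ℕ) :
    ∑ u : Fin m → {x // x ∈ S}, APZ_P a b S S' D u ≤ #D * (m * (#S : ℝ) ^ m * (#S : ℝ) ^ 2) := by
  unfold APZ_P
  rw [Finset.sum_comm]
  have h1 : ∀ d ∈ D, ∑ u : Fin m → {x // x ∈ S}, (∑ i, APZ_h a b S S' d (u i)) ^ 2 ≤ m * (#S : ℝ) ^ m * (#S : ℝ) ^ 2 := by
    intro d _
    have h2 := APL_var (APZ_h a b S S' d) ((#S : ℝ) ^ 2) (APZ_h_sum a b hb S S' d) (APZ_h_sq a b hb S S' d) m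
    rw [Fintype.card_coe] at h2
    exact h2
  have h2 := Finset.sum_le_card_nsmul D _ _ h1
  rw [nsmul_eq_mul] at h2
  exact h2

/-- at least half of the samples are good -/
lemma APZ_good (a b : ℕ) (hb : 1 ≤ b) (S S' : Finset ℕ) (D : Finset ℤ) (m : ℕ) (hS : 1 ≤ #S) (hD : 1 ≤ #D) (hm : 1 ≤ m) :
    (#S : ℝ) ^ m / 2 ≤ (#{u : Fin m → {x // x ∈ S} | APZ_P a b S S' D u ≤ 2 * (#D * (m * (#S : ℝ) ^ 2))} : ℝ) := by
  classical
  have h1 := APZ_tot a b hb S S' D m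
  set B : ℝ := 2 * (#D * (m * (#S : ℝ) ^ 2)) with hB
  have hB0 : 0 < B := by
    have h2 : (0 : ℝ) < #S := by exact_mod_cast hS
    have h3 : (0 : ℝ) < #D := by exact_mod_cast hD
    have h4 : (0 : ℝ) < m := by exact_mod_cast hm
    positivity
  have h2 : ∀ u : Fin m → {x // x ∈ S}, (if ¬ APZ_P a b S S' D u ≤ B then B else 0) ≤ APZ_P a b S S' D u := by
    intro u
    have h3 := APZ_P_nonneg a b S S' D u
    by_cases h4 : APZ_P a b S S' D u ≤ B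
    · rw [if_neg (not_not.mpr h4)]
      exact h3
    · rw [if_pos h4]
      exact (not_le.mp h4).le
  have h3 := Finset.sum_le_sum (s := Finset.univ) (fun u _ => h2 u)
  rw [← Finset.sum_filter, Finset.sum_const, nsmul_eq_mul] at h3
  have h4 := Finset.card_filter_add_card_filter_not (s := (Finset.univ : Finset (Fin m → {x // x ∈ S}))) (fun u => APZ_P a b S S' D u ≤ B)
  rw [Finset.card_univ, Fintype.card_fun, Fintype.card_coe, Fintype.card_fin] at h4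
  have h5 : (#{u : Fin m → {x // x ∈ S} | APZ_P a b S S' D u ≤ B} : ℝ) + (#{u : Fin m → {x // x ∈ S} | ¬ APZ_P a b S S' D u ≤ B} : ℝ) = (#S : ℝ) ^ m := by
    exact_mod_cast h4
  have h6 : (#{u : Fin m → {x // x ∈ S} | ¬ APZ_P a b S S' D u ≤ B} : ℝ) * B ≤ ((#S : ℝ) ^ m / 2) * B := by
    refine le_trans h3 (le_trans h1 (le_of_eq ?_))
    rw [hB]
    ring
  have h7 := le_of_mul_le_mul_right h6 hB0
  linarith

lemma APZ_rel (a b : ℕ) (S S' : Finset ℕ) {m : ℕ} (u u' : Fin m → {x // x ∈ S}) (z : ℤ)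
    (h : ∀ i, ((u i : ℕ) : ℤ) = ((u' i : ℕ) : ℤ) + z) (d : ℤ) :
    (∑ i, APZ_h a b S S' (d - a * z) (u' i)) - (∑ i, APZ_h a b S S' d (u i)) = m * ((ctz a b S S' d : ℝ) - ctz a b S S' (d - a * z)) := by
  rw [← Finset.sum_sub_distrib]
  have h1 : ∀ i, APZ_h a b S S' (d - a * z) (u' i) - APZ_h a b S S' d (u i) = (ctz a b S S' d : ℝ) - ctz a b S S' (d - a * z) := by
    intro i
    unfold APZ_h
    rw [h i]
    have h2 : (a : ℤ) * (((u' i : ℕ) : ℤ) + z) - d = (a : ℤ) * ((u' i : ℕ) : ℤ) - (d - a * z) := by ring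
    rw [h2]
    ring
  rw [Finset.sum_congr rfl (fun i _ => h1 i), Finset.sum_const, nsmul_eq_mul, Finset.card_univ, Fintype.card_fin]

theorem APZ : APZ_stmt := by
  classical
  intro a b ha hb σ κ hσ hκ
  have hA : 2 ≤ a + b := by omega
  have hA0 : (0 : ℝ) < (a : ℝ) + b := by
    have : (2 : ℝ) ≤ ((a + b : ℕ) : ℝ) := by exact_mod_cast hA
    push_cast at this
    linarith
  obtain ⟨m, hm⟩ := exists_nat_ge (max 1 (56 * ((a : ℝ) + b) / κ))
  have hm1 : 1 ≤ m := by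
    have : (1 : ℝ) ≤ m := le_trans (le_max_left _ _) hm
    exact_mod_cast this
  have hmκ : 56 * ((a : ℝ) + b) ≤ κ * m := by
    have h1 : 56 * ((a : ℝ) + b) / κ ≤ m := le_trans (le_max_right _ _) hm
    rw [div_le_iff₀ hκ] at h1
    linarith
  obtain ⟨Q, hQ⟩ := exists_nat_ge (max 1 (2 * (2 / σ) ^ m))
  have hQ1 : 1 ≤ Q := by
    have : (1 : ℝ) ≤ Q := le_trans (le_max_left _ _) hQ
    exact_mod_cast this
  have hQ2 : 2 * (2 / σ) ^ m ≤ Q := le_trans (le_max_right _ _) hQ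
  refine ⟨a * Q, Nat.mul_pos ha hQ1, ?_⟩
  intro p R S S' hR hpQ0 hS hS' hSσ
  have hpQa : a * (p * Q) ≤ R := by
    calc a * (p * Q) = p * (a * Q) := by ring
      _ ≤ R := hpQ0
  have hpQ : p * Q ≤ R := (Nat.le_mul_of_pos_left _ ha).trans hpQa
  have hR0 : (0 : ℝ) < R := by exact_mod_cast hR
  have hS1 : 1 ≤ #S := by
    have h1 : (0 : ℝ) < #S := lt_of_lt_of_le (mul_pos hσ hR0) hSσ
    exact_mod_cast h1
  have hSR : #S ≤ R := by
    have h1 := Finset.card_le_card hS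
    rwa [Finset.card_range] at h1
  set D : Finset ℤ := Icc (-(3 * (a + b) * R : ℤ)) (3 * (a + b) * R) with hD
  have hDc : #D = 6 * ((a + b) * R) + 1 := by
    rw [hD, Int.card_Icc]
    have e1 : (3 * ((a : ℤ) + b) * R + 1 - -(3 * ((a : ℤ) + b) * R)) = ((6 * ((a + b) * R) + 1 : ℕ) : ℤ) := by
      push_cast
      ring
    rw [e1, Int.toNat_natCast]
  have hgood := APZ_good a b hb S S' D m hS1 (by omega) hm1
  set G : Finset (Fin m → {x // x ∈ S}) := {u : Fin m → {x // x ∈ S} | APZ_P a b S S' D u ≤ 2 * (#D * (m * (#S : ℝ) ^ 2))} with hG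
  -- pigeonhole
  have hpig : ∃ s ∈ (range (Q + 1)) ×ˢ G, ∃ t ∈ (range (Q + 1)) ×ˢ G, s ≠ t ∧
      (fun c : ℕ × (Fin m → {x // x ∈ S}) => (fun i : Fin m => (c.2 i : ℕ) + c.1 * p)) s =
      (fun c : ℕ × (Fin m → {x // x ∈ S}) => (fun i : Fin m => (c.2 i : ℕ) + c.1 * p)) t := by
    refine Finset.exists_ne_map_eq_of_card_lt_of_maps_to (t := Fintype.piFinset (fun _ : Fin m => range (2 * R))) ?_ ?_
    · rw [Fintype.card_piFinset]
      simp only [Finset.card_range, Finset.prod_const, Finset.card_univ, Fintype.card_fin, Finset.card_product]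
      have h1 : (2 * (R : ℝ)) ^ m < (Q + 1) * (#G : ℝ) := by
        have h2 : (2 * (R : ℝ)) ^ m = (2 / σ) ^ m * (σ * R) ^ m := by
          rw [← mul_pow]
          congr 1
          field_simp
        have h3 : (σ * R) ^ m ≤ (#S : ℝ) ^ m := pow_le_pow_left₀ (by positivity) hSσ m
        have h4 : (0 : ℝ) < (#S : ℝ) ^ m := by
          have : (0 : ℝ) < #S := by exact_mod_cast hS1
          positivity
        have h5 : (0 : ℝ) ≤ (2 / σ) ^ m := by positivity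
        calc (2 * (R : ℝ)) ^ m = (2 / σ) ^ m * (σ * R) ^ m := h2
          _ ≤ (2 / σ) ^ m * (#S : ℝ) ^ m := mul_le_mul_of_nonneg_left h3 h5
          _ = (2 * (2 / σ) ^ m) * ((#S : ℝ) ^ m / 2) := by ring
          _ ≤ Q * ((#S : ℝ) ^ m / 2) := mul_le_mul_of_nonneg_right hQ2 (by positivity)
          _ < (Q + 1) * ((#S : ℝ) ^ m / 2) := by nlinarith
          _ ≤ (Q + 1) * (#G : ℝ) := mul_le_mul_of_nonneg_left hgood (by positivity)
      exact_mod_cast h1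
    · intro c hc
      obtain ⟨hc1, _⟩ := Finset.mem_product.mp (Finset.mem_coe.mp hc)
      refine Finset.mem_coe.mpr (Fintype.mem_piFinset.mpr ?_)
      intro i
      refine Finset.mem_range.mpr ?_
      have h1 := Finset.mem_range.mp (hS (c.2 i).2)
      have h2 : c.1 ≤ Q := Nat.lt_succ_iff.mp (Finset.mem_range.mp hc1)
      have h3 : c.1 * p ≤ Q * p := Nat.mul_le_mul_right p h2
      have h4 : Q * p ≤ R := by
        rw [Nat.mul_comm]
        exact hpQ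
      show (c.2 i : ℕ) + c.1 * p < 2 * R
      omega
  obtain ⟨s, hs, t, ht, hst, heq⟩ := hpig
  have hkey : ∀ s ∈ (range (Q + 1)) ×ˢ G, ∀ t ∈ (range (Q + 1)) ×ˢ G,
      (∀ i : Fin m, (s.2 i : ℕ) + s.1 * p = (t.2 i : ℕ) + t.1 * p) → s.1 < t.1 →
      ∃ q : ℕ, 1 ≤ q ∧ q ≤ a * Q ∧ ∑ d ∈ Icc (-(2 * (a + b) * R : ℤ)) (2 * (a + b) * R),
        ((ctz a b S S' d : ℝ) - ctz a b S S' (d - p * q)) ^ 2 ≤ κ * (R : ℝ) ^ 3 := by
    intro s hs t ht hE hlt
    obtain ⟨hs1, hs2⟩ := Finset.mem_product.mp hs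
    obtain ⟨ht1, ht2⟩ := Finset.mem_product.mp ht
    have ht1' : t.1 ≤ Q := Nat.lt_succ_iff.mp (Finset.mem_range.mp ht1)
    have hgA := (Finset.mem_filter.mp hs2).2
    have hgB := (Finset.mem_filter.mp ht2).2
    set q : ℕ := t.1 - s.1 with hq
    have hq1 : 1 ≤ q := by omega
    have hq2 : q ≤ Q := by omega
    refine ⟨a * q, Nat.mul_pos ha hq1, Nat.mul_le_mul_left a hq2, ?_⟩
    have hrel : ∀ i, ((s.2 i : ℕ) : ℤ) = ((t.2 i : ℕ) : ℤ) + (p : ℤ) * q := by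
      intro i
      have h1 := hE i
      have h2 : ((s.2 i : ℕ) : ℤ) + s.1 * p = ((t.2 i : ℕ) : ℤ) + t.1 * p := by exact_mod_cast h1
      have h3 : (q : ℤ) = (t.1 : ℤ) - s.1 := by
        rw [hq]
        omega
      rw [h3]
      linarith
    have haz : a * (p * q) ≤ R := le_trans (Nat.mul_le_mul_left a (Nat.mul_le_mul_left p hq2)) hpQa
    obtain ⟨z, hz⟩ : ∃ z : ℤ, z = (a : ℤ) * ((p : ℤ) * q) := ⟨_, rfl⟩
    have hz1 : z ≤ R := by
      rw [hz]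
      exact_mod_cast haz
    have hz0 : (0 : ℤ) ≤ z := by
      rw [hz]
      positivity
    have hzq : ∀ d : ℤ, d - (p : ℤ) * ((a * q : ℕ) : ℤ) = d - z := by
      intro d
      rw [hz]
      push_cast
      ring
    have h1 : ∀ d : ℤ, (m : ℝ) ^ 2 * ((ctz a b S S' d : ℝ) - ctz a b S S' (d - p * ((a * q : ℕ) : ℤ))) ^ 2 ≤
        2 * (∑ i, APZ_h a b S S' d (s.2 i)) ^ 2 + 2 * (∑ i, APZ_h a b S S' (d - z) (t.2 i)) ^ 2 := by
      intro d
      have h2 := APZ_rel a b S S' s.2 t.2 ((p : ℤ) * q) hrel d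
      rw [← hz] at h2
      rw [hzq d]
      have h3 : (m : ℝ) ^ 2 * ((ctz a b S S' d : ℝ) - ctz a b S S' (d - z)) ^ 2 =
          ((∑ i, APZ_h a b S S' (d - z) (t.2 i)) - (∑ i, APZ_h a b S S' d (s.2 i))) ^ 2 := by
        rw [h2]
        ring
      rw [h3]
      nlinarith [sq_nonneg ((∑ i, APZ_h a b S S' (d - z) (t.2 i)) + (∑ i, APZ_h a b S S' d (s.2 i)))]
    have hAR : (R : ℤ) ≤ ((a : ℤ) + b) * R := by
      have h2 : (1 : ℤ) ≤ (a : ℤ) + b := by exact_mod_cast (by omega : 1 ≤ a + b)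
      nlinarith
    have h2 : (m : ℝ) ^ 2 * ∑ d ∈ Icc (-(2 * (a + b) * R : ℤ)) (2 * (a + b) * R), ((ctz a b S S' d : ℝ) - ctz a b S S' (d - p * ((a * q : ℕ) : ℤ))) ^ 2 ≤
        2 * APZ_P a b S S' D s.2 + 2 * APZ_P a b S S' D t.2 := by
      rw [Finset.mul_sum]
      refine le_trans (Finset.sum_le_sum (fun d _ => h1 d)) ?_
      rw [Finset.sum_add_distrib, ← Finset.mul_sum, ← Finset.mul_sum]
      refine add_le_add (mul_le_mul_of_nonneg_left ?_ (by norm_num)) (mul_le_mul_of_nonneg_left ?_ (by norm_num))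
      · refine Finset.sum_le_sum_of_subset_of_nonneg ?_ (fun _ _ _ => sq_nonneg _)
        intro d hd
        have hd' := Finset.mem_Icc.mp hd
        exact Finset.mem_Icc.mpr ⟨by linarith [hd'.1], by linarith [hd'.2]⟩
      · have h3 : ∑ d ∈ Icc (-(2 * (a + b) * R : ℤ)) (2 * (a + b) * R), (∑ i, APZ_h a b S S' (d - z) (t.2 i)) ^ 2 =
            ∑ d ∈ (Icc (-(2 * (a + b) * R : ℤ)) (2 * (a + b) * R)).image (fun d => d - z), (∑ i, APZ_h a b S S' d (t.2 i)) ^ 2 := by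
          rw [Finset.sum_image]
          intro x _ y _ hxy
          have hxy' : x - z = y - z := hxy
          omega
        rw [h3]
        refine Finset.sum_le_sum_of_subset_of_nonneg ?_ (fun _ _ _ => sq_nonneg _)
        intro d hd
        obtain ⟨x, hx, hxd⟩ := Finset.mem_image.mp hd
        have hx' := Finset.mem_Icc.mp hx
        have hxd' : x - z = d := hxd
        exact Finset.mem_Icc.mpr ⟨by linarith [hx'.1], by linarith [hx'.2]⟩
    have hSR' : (#S : ℝ) ≤ R := by exact_mod_cast hSR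
    have hR1 : (1 : ℝ) ≤ R := by exact_mod_cast hR
    have hm0 : (0 : ℝ) < m := by exact_mod_cast hm1
    obtain ⟨A, hAdef⟩ : ∃ A : ℝ, A = (a : ℝ) + b := ⟨_, rfl⟩
    rw [← hAdef] at hA0 hmκ
    have hA1 : 1 ≤ A := by
      rw [hAdef]
      exact_mod_cast (by omega : 1 ≤ a + b)
    have h3 : 2 * ((#D : ℝ) * (m * (#S : ℝ) ^ 2)) ≤ 14 * A * (m * (R : ℝ) ^ 3) := by
      have h4 : (#D : ℝ) ≤ 7 * A * R := by
        rw [hDc]
        push_cast
        rw [← hAdef]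
        nlinarith
      have h5 : (#S : ℝ) ^ 2 ≤ (R : ℝ) ^ 2 := pow_le_pow_left₀ (by positivity) hSR' 2
      have h6 : (m : ℝ) * (#S : ℝ) ^ 2 ≤ m * (R : ℝ) ^ 2 := mul_le_mul_of_nonneg_left h5 hm0.le
      have h7 : (#D : ℝ) * (m * (#S : ℝ) ^ 2) ≤ (7 * A * R) * (m * (R : ℝ) ^ 2) := mul_le_mul h4 h6 (by positivity) (by positivity)
      calc 2 * ((#D : ℝ) * (m * (#S : ℝ) ^ 2)) ≤ 2 * ((7 * A * R) * (m * (R : ℝ) ^ 2)) := by linarith
        _ = 14 * A * (m * (R : ℝ) ^ 3) := by ring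
    have h4 : (m : ℝ) ^ 2 * ∑ d ∈ Icc (-(2 * (a + b) * R : ℤ)) (2 * (a + b) * R), ((ctz a b S S' d : ℝ) - ctz a b S S' (d - p * ((a * q : ℕ) : ℤ))) ^ 2 ≤
        (m : ℝ) ^ 2 * (κ * (R : ℝ) ^ 3) := by
      have h5 : 56 * A * (m * (R : ℝ) ^ 3) ≤ (κ * m) * (m * (R : ℝ) ^ 3) := mul_le_mul_of_nonneg_right hmκ (by positivity)
      calc (m : ℝ) ^ 2 * ∑ d ∈ Icc (-(2 * (a + b) * R : ℤ)) (2 * (a + b) * R), ((ctz a b S S' d : ℝ) - ctz a b S S' (d - p * ((a * q : ℕ) : ℤ))) ^ 2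
          ≤ 2 * APZ_P a b S S' D s.2 + 2 * APZ_P a b S S' D t.2 := h2
        _ ≤ 56 * A * (m * (R : ℝ) ^ 3) := by linarith
        _ ≤ (κ * m) * (m * (R : ℝ) ^ 3) := h5
        _ = (m : ℝ) ^ 2 * (κ * (R : ℝ) ^ 3) := by ring
    exact le_of_mul_le_mul_left h4 (by positivity)
  have hE : ∀ i : Fin m, (s.2 i : ℕ) + s.1 * p = (t.2 i : ℕ) + t.1 * p := fun i => congrFun heq i
  rcases lt_trichotomy s.1 t.1 with hlt | heq1 | hgt
  · exact hkey s hs t ht hE hlt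
  · exfalso
    apply hst
    refine Prod.ext heq1 ?_
    funext i
    have h1 := hE i
    rw [heq1] at h1
    exact Subtype.ext (by omega)
  · exact hkey t ht s hs (fun i => (hE i).symm) hgt

end Pool.Agent.HF
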